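import Mathlib

set_option autoImplicit false

namespace Pool.Agent.Results.MP_88b750_co.MiddleRegime

/-- `T_j = j(j+1)/2`. -/
def tri (j : ℕ) : ℕ := j * (j + 1) / 2

/-- A tiling of the square `[0,n]²` by `m` closed axis-parallel rectangles with (positive) integer
side lengths and pairwise disjoint interiors: tile `i` is
`[x i, x i + a i] × [y i, y i + b i]`. -/
structure Tiling (n m : ℕ) where
  x : Fin m → ℝ
  y : Fin m → ℝ
  a : Fin m → ℕ
  b : Fin m → ℕ
  a_pos : ∀ i, 0 < a i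
  b_pos : ∀ i, 0 < b i
  cover : ⋃ i, (Set.Icc (x i) (x i + a i) ×ˢ Set.Icc (y i) (y i + b i)) =
    Set.Icc (0 : ℝ) n ×ˢ Set.Icc (0 : ℝ) n
  disj : ∀ i j, i ≠ j → Disjoint
    (interior (Set.Icc (x i) (x i + a i) ×ˢ Set.Icc (y i) (y i + b i)))
    (interior (Set.Icc (x j) (x j + a j) ×ˢ Set.Icc (y j) (y j + b j)))

/-- The unordered pairs `{a i, b i}` are pairwise distinct. -/
def Tiling.Admissible {n m : ℕ} (T : Tiling n m) : Prop :=
  Function.Injective fun i => s(T.a i, T.b i)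

/-- The internal wall length `W = ∑ (a i + b i) - 2 n`. -/
def Tiling.wall {n m : ℕ} (T : Tiling n m) : ℤ :=
  ∑ i, ((T.a i : ℤ) + (T.b i : ℤ)) - 2 * n

/-! ### Cell tilings -/

/-- a tiling of the `n × n` grid of cells by boxes -/
structure CT (n : ℕ) (ι : Type) where
  X : ι → ℕ
  Y : ι → ℕ
  a : ι → ℕ
  b : ι → ℕ
  a_pos : ∀ i, 0 < a i
  b_pos : ∀ i, 0 < b i
  hX : ∀ i, X i + a i ≤ n
  hY : ∀ i, Y i + b i ≤ n
  cov : ∀ p < n, ∀ q < n, ∃! i, (X i ≤ p ∧ p < X i + a i) ∧ (Y i ≤ q ∧ q < Y i + b i)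

namespace CT

variable {n : ℕ} {ι : Type}

def swap (C : CT n ι) : CT n ι where
  X := C.Y
  Y := C.X
  a := C.b
  b := C.a
  a_pos := C.b_pos
  b_pos := C.a_pos
  hX := C.hY
  hY := C.hX
  cov := by
    intro p hp q hq
    obtain ⟨i, hi, hu⟩ := C.cov q hq p hp
    exact ⟨i, ⟨hi.2, hi.1⟩, fun j hj => hu j ⟨hj.2, hj.1⟩⟩

def flip (C : CT n ι) : CT n ι where
  X := C.X
  Y := fun i => n - C.Y i - C.b i
  a := C.a
  b := C.b
  a_pos := C.a_pos
  b_pos := C.b_pos
  hX := C.hX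
  hY := by
    intro i
    have := C.hY i
    omega
  cov := by
    intro p hp q hq
    obtain ⟨i, hi, hu⟩ := C.cov p hp (n - 1 - q) (by omega)
    refine ⟨i, ⟨hi.1, ?_⟩, fun j hj => hu j ⟨hj.1, ?_⟩⟩
    · have h1 := C.hY i
      have h2 := hi.2
      omega
    · have h1 := C.hY j
      have h2 := hj.2
      omega

lemma uniq (C : CT n ι) {p q : ℕ} {i j : ι}
    (hi : (C.X i ≤ p ∧ p < C.X i + C.a i) ∧ (C.Y i ≤ q ∧ q < C.Y i + C.b i))
    (hj : (C.X j ≤ p ∧ p < C.X j + C.a j) ∧ (C.Y j ≤ q ∧ q < C.Y j + C.b j)) : i = j := by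
  have h1 := C.hX i
  have h2 := C.hY i
  exact (C.cov p (by omega) q (by omega)).unique hi hj

variable [Fintype ι] [DecidableEq ι]

open Finset

lemma filt (C : CT n ι) (i : ι) :
    (range n).filter (fun p => C.X i ≤ p ∧ p < C.X i + C.a i) = Ico (C.X i) (C.X i + C.a i) := by
  ext p
  have := C.hX i
  simp only [mem_filter, mem_range, mem_Ico]
  omega

/-- the widths of the tiles meeting a row sum to `n` -/
lemma row_sum (C : CT n ι) {q : ℕ} (hq : q < n) :
    ∑ i ∈ univ.filter (fun i => C.Y i ≤ q ∧ q < C.Y i + C.b i), C.a i = n := by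
  have h2 : (range n).card = ∑ i ∈ univ.filter (fun i => C.Y i ≤ q ∧ q < C.Y i + C.b i),
      (Ico (C.X i) (C.X i + C.a i)).card := by
    rw [← card_biUnion]
    · congr 1
      ext p
      simp only [mem_range, mem_biUnion, mem_filter, mem_univ, true_and, mem_Ico]
      constructor
      · intro hp
        obtain ⟨i, hi, -⟩ := C.cov p hp q hq
        exact ⟨i, hi.2, hi.1⟩
      · rintro ⟨i, -, hp⟩
        have := C.hX i
        omega
    · intro i hi j hj hij
      rw [Function.onFun, Finset.disjoint_left]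
      intro p hp hp'
      simp only [mem_Ico, coe_filter, mem_univ, true_and, Set.mem_ofPred_eq] at *
      exact hij (C.uniq ⟨hp, hi⟩ ⟨hp', hj⟩)
  simp only [Nat.card_Ico, card_range, Nat.add_sub_cancel_left] at h2
  exact h2.symm

lemma sum_a_ge (C : CT n ι) (k : ℕ)
    (h : ∀ p < n, k ≤ (univ.filter (fun i => C.X i ≤ p ∧ p < C.X i + C.a i)).card) :
    k * n ≤ ∑ i, C.a i := by
  have h1 : ∀ i, C.a i = ∑ p ∈ range n, if (C.X i ≤ p ∧ p < C.X i + C.a i) then 1 else 0 := by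
    intro i
    rw [← Finset.sum_filter, Finset.sum_const, smul_eq_mul, mul_one, C.filt i]
    simp
  calc k * n = ∑ p ∈ range n, k := by simp [mul_comm]
    _ ≤ ∑ p ∈ range n, (univ.filter (fun i => C.X i ≤ p ∧ p < C.X i + C.a i)).card :=
        Finset.sum_le_sum fun p hp => h p (by simpa using hp)
    _ = ∑ p ∈ range n, ∑ i, if (C.X i ≤ p ∧ p < C.X i + C.a i) then 1 else 0 := by
        refine Finset.sum_congr rfl fun p _ => ?_
        rw [Finset.card_filter]
    _ = ∑ i, ∑ p ∈ range n, if (C.X i ≤ p ∧ p < C.X i + C.a i) then 1 else 0 :=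
        Finset.sum_comm
    _ = ∑ i, C.a i := Finset.sum_congr rfl fun i _ => (h1 i).symm

end CT

open Finset

/-- distinct positive integers have a large sum -/
lemma sum_distinct (S : Finset ℕ) (h : ∀ x ∈ S, 1 ≤ x) :
    S.card * (S.card + 1) ≤ 2 * ∑ x ∈ S, x := by
  induction hc : S.card generalizing S with
  | zero => simp
  | succ t ih =>
    have hne : S.Nonempty := by
      rw [← Finset.card_pos]; omega
    have hM : S.max' hne ∈ S := S.max'_mem hne
    have hsub : S ⊆ Finset.Icc 1 (S.max' hne) := by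
      intro x hx
      rw [Finset.mem_Icc]
      exact ⟨h x hx, S.le_max' x hx⟩
    have hcard := Finset.card_le_card hsub
    rw [Nat.card_Icc, hc, Nat.add_sub_cancel] at hcard
    have h2 := ih (S.erase (S.max' hne)) (fun x hx => h x (Finset.mem_of_mem_erase hx))
      (by rw [Finset.card_erase_of_mem hM, hc]; rfl)
    rw [← Finset.add_sum_erase S _ hM]
    nlinarith

lemma sum_distinct' {ι : Type} [DecidableEq ι] (S : Finset ι) (f : ι → ℕ) (h : ∀ x ∈ S, 1 ≤ f x)
    (hinj : Set.InjOn f S) : S.card * (S.card + 1) ≤ 2 * ∑ x ∈ S, f x := by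
  have h1 := sum_distinct (S.image f) (by
    intro x hx
    obtain ⟨y, hy, rfl⟩ := Finset.mem_image.1 hx
    exact h y hy)
  rw [Finset.card_image_of_injOn hinj, Finset.sum_image hinj] at h1
  exact h1

namespace CT

variable {n : ℕ} {ι : Type} [Fintype ι] [DecidableEq ι]

lemma sum_a_ge_one (C : CT n ι) : n ≤ ∑ i, C.a i := by
  have := C.sum_a_ge 1 (by
    intro p hp
    obtain ⟨i, hi, -⟩ := C.cov p hp 0 (by omega)
    rw [Nat.succ_le_iff, Finset.card_pos]
    exact ⟨i, by simp [hi.1]⟩)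
  simpa using this

lemma sum_b_ge_one (C : CT n ι) : n ≤ ∑ i, C.b i := C.swap.sum_a_ge_one

lemma sum_a_ge_two (C : CT n ι) (h : ∀ i, C.b i ≠ n) : 2 * n ≤ ∑ i, C.a i := by
  apply C.sum_a_ge 2
  intro p hp
  obtain ⟨i, hi, -⟩ := C.cov p hp 0 (by omega)
  obtain ⟨j, hj, -⟩ := C.cov p hp (n - 1) (by omega)
  rw [Nat.succ_le_iff, Finset.one_lt_card]
  refine ⟨i, by simp [hi.1], j, by simp [hj.1], ?_⟩
  rintro rfl
  have h1 := h i
  have h2 := C.hY i
  omega

/-- three tiles in every column -/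
lemma sum_a_ge_three (C : CT n ι) (R : ι) (hR : C.a R = n)
    (h : ∀ p < n, ∃ i j, i ≠ R ∧ j ≠ R ∧ i ≠ j ∧ (C.X i ≤ p ∧ p < C.X i + C.a i) ∧
      (C.X j ≤ p ∧ p < C.X j + C.a j)) : 3 * n ≤ ∑ i, C.a i := by
  apply C.sum_a_ge 3
  intro p hp
  obtain ⟨i, j, h1, h2, h3, h4, h5⟩ := h p hp
  rw [Nat.succ_le_iff, Finset.two_lt_card]
  have := C.hX R
  exact ⟨R, by simp; omega, i, by simp [h4], j, by simp [h5], h1.symm, h2.symm, h3⟩

end CT

/-- the core: a full-width tile at the top -/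
lemma lower_top {n : ℕ} {ι : Type} [Fintype ι] [DecidableEq ι] (C : CT n ι)
    (hinj : Function.Injective fun i => s(C.a i, C.b i)) (m : ℕ) (hm : Fintype.card ι = m)
    (h5 : 5 ≤ m) (hn1 : (m - 2) * (m - 1) ≤ 2 * n) (hn2 : 2 * n < (m - 1) * m)
    (R : ι) (hR : C.a R = n) (htop : C.Y R + C.b R = n) :
    3 * n + 2 * (m - 2) ≤ ∑ i, C.a i + ∑ i, C.b i := by
  have hn3 : 2 * (m - 2) ≤ n := by
    have : (m - 2) * 4 ≤ (m - 2) * (m - 1) := Nat.mul_le_mul_left _ (by omega)
    omega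
  have hXR : C.X R = 0 := by
    have := C.hX R
    omega
  obtain ⟨c, hc⟩ : ∃ c, c = C.Y R := ⟨_, rfl⟩
  have hbR := C.b_pos R
  have hbelow : ∀ i, i ≠ R → C.Y i + C.b i ≤ c := by
    intro i hi
    by_contra hcon
    apply hi
    have h1 := C.a_pos i
    have h2 := C.b_pos i
    have h3 := C.hX i
    have h4 := C.hY i
    apply C.uniq (p := C.X i) (q := C.Y i + C.b i - 1)
    · refine ⟨⟨le_rfl, by omega⟩, by omega, by omega⟩
    · refine ⟨⟨by omega, by omega⟩, by omega, by omega⟩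
  have hcn : c < n := by omega
  obtain ⟨i₀, hi₀⟩ : ∃ i, i ≠ R := by
    by_contra hcon
    push Not at hcon
    have : Fintype.card ι ≤ 1 := Fintype.card_le_one_iff.2 fun a b => by rw [hcon a, hcon b]
    omega
  have hc1 : 1 ≤ c := by
    have h1 := hbelow i₀ hi₀
    have h2 := C.b_pos i₀
    omega
  rcases Nat.lt_or_ge c 2 with hc2 | hc2
  · -- `c = 1`
    exfalso
    have hall : ∀ i, i ≠ R → C.Y i = 0 ∧ C.b i = 1 := by
      intro i hi
      have h1 := hbelow i hi
      have h2 := C.b_pos i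
      omega
    have hrow := C.row_sum (q := 0) (by omega)
    have hfilt : univ.filter (fun i => C.Y i ≤ 0 ∧ 0 < C.Y i + C.b i) = univ.erase R := by
      ext i
      simp only [mem_filter, mem_univ, true_and, mem_erase, and_true]
      constructor
      · rintro ⟨h1, -⟩ rfl
        omega
      · intro hi
        have := hall i hi
        omega
    rw [hfilt] at hrow
    have h1 := sum_distinct' (univ.erase R) C.a (fun i _ => C.a_pos i) (by
      intro i hi j hj hij
      simp only [coe_erase, coe_univ, Set.mem_sdiff, Set.mem_univ, Set.mem_singleton_iff,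
        true_and] at hi hj
      apply hinj
      simp only [hij, (hall i hi).2, (hall j hj).2])
    rw [hrow, Finset.card_erase_of_mem (mem_univ _), Finset.card_univ, hm] at h1
    have : m - 1 + 1 = m := by omega
    rw [this] at h1
    omega
  by_cases hQ : ∃ Q, Q ≠ R ∧ C.b Q = c
  swap
  · -- no tile of height `c` in the strip
    push Not at hQ
    have h1 : 3 * n ≤ ∑ i, C.a i := by
      apply C.sum_a_ge_three R hR
      intro p hp
      obtain ⟨i, hi, -⟩ := C.cov p hp 0 (by omega)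
      obtain ⟨j, hj, -⟩ := C.cov p hp (c - 1) (by omega)
      have hiR : i ≠ R := by rintro rfl; omega
      have hjR : j ≠ R := by rintro rfl; omega
      refine ⟨i, j, hiR, hjR, ?_, hi.1, hj.1⟩
      rintro rfl
      have h1 := hQ i hiR
      have h2 := hbelow i hiR
      omega
    have h2 := C.sum_b_ge_one
    omega
  obtain ⟨Q, hQR, hbQ⟩ := hQ
  have hYQ : C.Y Q = 0 := by
    have := hbelow Q hQR
    omega
  -- the other tiles
  obtain ⟨I, hI⟩ : ∃ I : Finset ι, I = (univ.erase R).erase Q := ⟨_, rfl⟩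
  have hmemI : ∀ i, i ∈ I ↔ i ≠ Q ∧ i ≠ R := by
    intro i; rw [hI]; simp
  have hcardI : I.card = m - 2 := by
    rw [hI, Finset.card_erase_of_mem (by simp [hQR]), Finset.card_erase_of_mem (mem_univ _),
      Finset.card_univ, hm]
    omega
  have hsumf : ∀ f : ι → ℤ, ∑ i, f i = f R + (f Q + ∑ i ∈ I, f i) := by
    intro f
    rw [← Finset.add_sum_erase univ f (mem_univ R),
      ← Finset.add_sum_erase (univ.erase R) f (show Q ∈ univ.erase R by simp [hQR]), hI]
  have hrow : (C.a Q : ℤ) + ∑ i ∈ I.filter (fun i => C.Y i = 0), (C.a i : ℤ) = n := by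
    have h1 := C.row_sum (q := 0) (by omega)
    have hfilt : univ.filter (fun i => C.Y i ≤ 0 ∧ 0 < C.Y i + C.b i) =
        insert Q (I.filter (fun i => C.Y i = 0)) := by
      ext i
      simp only [mem_filter, mem_univ, true_and, mem_insert, hmemI]
      constructor
      · rintro ⟨h1, h2⟩
        by_cases hiQ : i = Q
        · exact Or.inl hiQ
        · refine Or.inr ⟨⟨hiQ, ?_⟩, by omega⟩
          rintro rfl
          omega
      · rintro (rfl | ⟨-, h⟩)
        · omega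
        · have := C.b_pos i
          omega
    rw [hfilt, Finset.sum_insert (by simp [hmemI])] at h1
    exact_mod_cast h1
  obtain ⟨D, hD⟩ : ∃ D : Finset ι, D = I.filter (fun i => C.Y i = 0 ∧ C.b i = 1) := ⟨_, rfl⟩
  obtain ⟨U, hU⟩ : ∃ U : Finset ι, U = I.filter (fun i => C.Y i = 1) := ⟨_, rfl⟩
  obtain ⟨U1, hU1⟩ : ∃ U1 : Finset ι, U1 = U.filter (fun i => C.b i = 1) := ⟨_, rfl⟩
  -- the tiles above the deficient ones
  have hLA : ∑ i ∈ D, C.a i ≤ ∑ i ∈ U, C.a i := by
    have h1 : ∑ i ∈ D, C.a i = (D.biUnion fun i => Ico (C.X i) (C.X i + C.a i)).card := by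
      rw [card_biUnion]
      · simp
      · intro i hi j hj hij
        rw [Function.onFun, Finset.disjoint_left]
        intro p hp hp'
        rw [hD] at hi hj
        simp only [mem_Ico, coe_filter, hmemI, Set.mem_ofPred_eq] at *
        exact hij (C.uniq (q := 0) ⟨hp, by omega⟩ ⟨hp', by omega⟩)
    have h2 : (D.biUnion fun i => Ico (C.X i) (C.X i + C.a i)) ⊆
        (U.biUnion fun i => Ico (C.X i) (C.X i + C.a i)) := by
      intro p hp
      simp only [mem_biUnion, mem_Ico, hD, mem_filter, hmemI] at hp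
      obtain ⟨i, ⟨⟨hiQ, hiR⟩, hY0, hb1⟩, hpi⟩ := hp
      have hXi := C.hX i
      obtain ⟨j, hj, -⟩ := C.cov p (by omega) 1 (by omega)
      have hjR : j ≠ R := by rintro rfl; omega
      have hjQ : j ≠ Q := by
        rintro rfl
        exact hiQ (C.uniq (p := p) (q := 0) ⟨hpi, by omega⟩ ⟨hj.1, by omega⟩)
      have hYj : C.Y j = 1 := by
        by_contra hcon
        have h0 : C.Y j = 0 := by omega
        have : i = j := C.uniq (p := p) (q := 0) ⟨hpi, by omega⟩ ⟨hj.1, by omega⟩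
        subst this
        omega
      simp only [mem_biUnion, mem_Ico, hU, mem_filter, hmemI]
      exact ⟨j, ⟨⟨hjQ, hjR⟩, hYj⟩, hj.1⟩
    calc ∑ i ∈ D, C.a i = (D.biUnion fun i => Ico (C.X i) (C.X i + C.a i)).card := h1
      _ ≤ (U.biUnion fun i => Ico (C.X i) (C.X i + C.a i)).card := card_le_card h2
      _ ≤ ∑ i ∈ U, (Ico (C.X i) (C.X i + C.a i)).card := card_biUnion_le
      _ = ∑ i ∈ U, C.a i := by simp
  have hU1A : ∑ i ∈ U1, C.a i ≤ ∑ i ∈ U, C.a i := by
    rw [hU1]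
    exact Finset.sum_le_sum_of_subset (Finset.filter_subset _ _)
  have hdisj : Disjoint D U1 := by
    rw [Finset.disjoint_left]
    intro i hi hi'
    rw [hD] at hi
    rw [hU1, hU] at hi'
    simp only [mem_filter] at hi hi'
    omega
  have hdist := sum_distinct' (D ∪ U1) C.a (fun i _ => C.a_pos i) (by
    have hb : ∀ i ∈ D ∪ U1, C.b i = 1 := by
      intro i hi
      rw [hD, hU1] at hi
      simp only [mem_union, mem_filter] at hi
      omega
    intro i hi j hj hij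
    apply hinj
    simp only [hij, hb i (by exact_mod_cast hi), hb j (by exact_mod_cast hj)])
  rw [Finset.card_union_of_disjoint hdisj, Finset.sum_union hdisj] at hdist
  have hAt : D.card + U1.card ≤ ∑ i ∈ U, C.a i := by
    by_contra hcon
    push Not at hcon
    have h1 : (D.card + U1.card) * (D.card + U1.card + 1) ≤ 4 * (D.card + U1.card - 1) := by
      omega
    obtain ⟨t, ht⟩ : ∃ t, D.card + U1.card = t + 1 := ⟨D.card + U1.card - 1, by omega⟩
    rw [ht] at h1
    simp only [Nat.add_sub_cancel] at h1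
    nlinarith [sq_nonneg ((t : ℤ) - 1)]
  -- the final count
  have hfin : (0 : ℤ) ≤ ∑ i ∈ I, ((C.a i : ℤ) + C.b i - (if C.Y i = 0 then (C.a i : ℤ) else 0) - 2) := by
    have h1 : ∀ i ∈ I, (if C.Y i = 1 then ((C.a i : ℤ) - if C.b i = 1 then 1 else 0) else 0)
        - (if C.Y i = 0 ∧ C.b i = 1 then 1 else 0)
        ≤ (C.a i : ℤ) + C.b i - (if C.Y i = 0 then (C.a i : ℤ) else 0) - 2 := by
      intro i _
      have ha := C.a_pos i
      have hb := C.b_pos i
      split_ifs <;> omega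
    refine le_trans ?_ (Finset.sum_le_sum h1)
    rw [Finset.sum_sub_distrib, ← Finset.sum_filter, ← hU, Finset.sum_sub_distrib,
      ← Finset.sum_filter, ← hU1, ← Finset.sum_filter, ← hD]
    simp only [Finset.sum_const, nsmul_eq_mul, mul_one]
    have : ((D.card + U1.card : ℕ) : ℤ) ≤ ((∑ i ∈ U, C.a i : ℕ) : ℤ) := by exact_mod_cast hAt
    push_cast at this
    linarith
  have hsplit : ∑ i ∈ I, ((C.a i : ℤ) + C.b i - (if C.Y i = 0 then (C.a i : ℤ) else 0) - 2)
      = ∑ i ∈ I, ((C.a i : ℤ) + C.b i) - ∑ i ∈ I.filter (fun i => C.Y i = 0), (C.a i : ℤ)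
        - 2 * (m - 2 : ℕ) := by
    rw [Finset.sum_sub_distrib, Finset.sum_sub_distrib, ← Finset.sum_filter]
    simp only [Finset.sum_const, nsmul_eq_mul, hcardI]
    ring
  have hsum := hsumf (fun i => (C.a i : ℤ) + C.b i)

  have htot : (∑ i, C.a i + ∑ i, C.b i : ℕ) = (∑ i, ((C.a i : ℤ) + C.b i)) := by
    push_cast
    rw [Finset.sum_add_distrib]
  have hgoal : ((3 * n + 2 * (m - 2) : ℕ) : ℤ) ≤ ((∑ i, C.a i + ∑ i, C.b i : ℕ) : ℤ) := by
    rw [htot, hsum, hR, hbQ]
    rw [hsplit] at hfin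
    have e1 : (C.b R : ℤ) = n - c := by
      have : C.b R = n - c := by omega
      rw [this]
      push_cast [hcn.le]
      ring
    rw [e1]
    push_cast at hfin ⊢
    linarith
  exact_mod_cast hgoal


lemma lower_R {n : ℕ} {ι : Type} [Fintype ι] [DecidableEq ι] (C : CT n ι)
    (hinj : Function.Injective fun i => s(C.a i, C.b i)) (m : ℕ) (hm : Fintype.card ι = m)
    (h5 : 5 ≤ m) (hn1 : (m - 2) * (m - 1) ≤ 2 * n) (hn2 : 2 * n < (m - 1) * m)
    (R : ι) (hR : C.a R = n) :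
    3 * n + 2 * (m - 2) ≤ ∑ i, C.a i + ∑ i, C.b i := by
  by_cases h1 : C.Y R + C.b R = n
  · exact lower_top C hinj m hm h5 hn1 hn2 R hR h1
  by_cases h2 : C.Y R = 0
  · have hb := C.hY R
    exact lower_top C.flip hinj m hm h5 hn1 hn2 R hR (by
      show n - C.Y R - C.b R + C.b R = n
      omega)
  have hn3 : 2 * (m - 2) ≤ n := by
    have : (m - 2) * 4 ≤ (m - 2) * (m - 1) := Nat.mul_le_mul_left _ (by omega)
    omega
  have hXR := C.hX R
  have hYR := C.hY R
  have hbR := C.b_pos R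
  have h3 : 3 * n ≤ ∑ i, C.a i := by
    apply C.sum_a_ge_three R hR
    intro p hp
    obtain ⟨i, hi, -⟩ := C.cov p hp 0 (by omega)
    obtain ⟨j, hj, -⟩ := C.cov p hp (n - 1) (by omega)
    have hiR : i ≠ R := by rintro rfl; omega
    have hjR : j ≠ R := by rintro rfl; omega
    refine ⟨i, j, hiR, hjR, ?_, hi.1, hj.1⟩
    rintro rfl
    exact hiR (C.uniq (p := p) (q := C.Y R) ⟨hi.1, by omega⟩ ⟨by omega, by omega⟩)
  have h4 := C.sum_b_ge_one
  omega

lemma lower {n : ℕ} {ι : Type} [Fintype ι] [DecidableEq ι] (C : CT n ι)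
    (hinj : Function.Injective fun i => s(C.a i, C.b i)) (m : ℕ) (hm : Fintype.card ι = m)
    (h5 : 5 ≤ m) (hn1 : (m - 2) * (m - 1) ≤ 2 * n) (hn2 : 2 * n < (m - 1) * m) :
    3 * n + 2 * (m - 2) ≤ ∑ i, C.a i + ∑ i, C.b i := by
  by_cases h1 : ∃ R, C.a R = n
  · obtain ⟨R, hR⟩ := h1
    exact lower_R C hinj m hm h5 hn1 hn2 R hR
  by_cases h2 : ∃ R, C.b R = n
  · obtain ⟨R, hR⟩ := h2
    have := lower_R C.swap (by
      intro i j hij
      apply hinj
      simp only [CT.swap] at hij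
      simp only
      rw [Sym2.eq_swap, hij, Sym2.eq_swap]) m hm h5 hn1 hn2 R hR
    simp only [CT.swap] at this
    omega
  push Not at h1 h2
  have hn3 : 2 * (m - 2) ≤ n := by
    have : (m - 2) * 4 ≤ (m - 2) * (m - 1) := Nat.mul_le_mul_left _ (by omega)
    omega
  have h3 := C.sum_a_ge_two h2
  have h4 : 2 * n ≤ ∑ i, C.b i := C.swap.sum_a_ge_two h1
  omega

/-! ### From real tilings to cell tilings -/

lemma interior_box (x y : ℝ) (a b : ℝ) :
    interior (Set.Icc x (x + a) ×ˢ Set.Icc y (y + b)) = Set.Ioo x (x + a) ×ˢ Set.Ioo y (y + b) := by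
  rw [interior_prod_eq, interior_Icc, interior_Icc]

lemma exists_theta {ι : Type} [Finite ι] (x : ι → ℝ) :
    ∃ θ : ℝ, 0 < θ ∧ θ < 1 ∧ ∀ i (z : ℤ), x i ≠ z + θ := by
  have hfin : (Set.range fun i => Int.fract (x i)).Finite := Set.finite_range _
  obtain ⟨θ, hθ, hnot⟩ := (Set.Ioo_infinite (show (0 : ℝ) < 1 by norm_num)).exists_notMem_finite hfin
  refine ⟨θ, hθ.1, hθ.2, fun i z hz => hnot ⟨i, ?_⟩⟩
  show Int.fract (x i) = θ
  rw [hz, Int.fract_intCast_add, Int.fract_eq_self]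
  exact ⟨hθ.1.le, hθ.2⟩

lemma toCT {n m : ℕ} (T : Tiling n m) : ∃ C : CT n (Fin m), C.a = T.a ∧ C.b = T.b := by
  obtain ⟨θ, hθ0, hθ1, hθ⟩ := exists_theta T.x
  obtain ⟨η, hη0, hη1, hη⟩ := exists_theta T.y
  have hbox : ∀ i, 0 ≤ T.x i ∧ 0 ≤ T.y i ∧ T.x i + T.a i ≤ n ∧ T.y i + T.b i ≤ n := by
    intro i
    have ha : (0 : ℝ) < T.a i := by exact_mod_cast T.a_pos i
    have hb : (0 : ℝ) < T.b i := by exact_mod_cast T.b_pos i
    have h1 : (T.x i, T.y i) ∈ Set.Icc (0 : ℝ) n ×ˢ Set.Icc (0 : ℝ) n := by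
      rw [← T.cover]
      exact Set.mem_iUnion.2 ⟨i, by simp only [Set.mem_prod, Set.mem_Icc]; constructor <;> constructor <;> linarith⟩
    have h2 : (T.x i + T.a i, T.y i + T.b i) ∈ Set.Icc (0 : ℝ) n ×ˢ Set.Icc (0 : ℝ) n := by
      rw [← T.cover]
      exact Set.mem_iUnion.2 ⟨i, by simp only [Set.mem_prod, Set.mem_Icc]; constructor <;> constructor <;> linarith⟩
    simp only [Set.mem_prod, Set.mem_Icc] at h1 h2
    exact ⟨h1.1.1, h1.2.1, h2.1.2, h2.2.2⟩
  -- integer coordinates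
  have key : ∀ (x : ℝ) (θ : ℝ) (_ : θ < 1) (_ : 0 ≤ x) (a p : ℕ),
      ((⌈x - θ⌉.toNat ≤ p ∧ p < ⌈x - θ⌉.toNat + a) ↔ (x ≤ p + θ ∧ p + θ < x + a)) := by
    intro x θ h1 h0 a p
    have hpos : 0 ≤ ⌈x - θ⌉ := by
      rw [← Int.sub_one_lt_iff, Int.lt_ceil]
      push_cast
      linarith
    have e1 : (⌈x - θ⌉.toNat ≤ p) ↔ x ≤ p + θ := by
      rw [Int.toNat_le, Int.ceil_le]
      push_cast
      constructor <;> intro h <;> linarith
    have e2 : (p < ⌈x - θ⌉.toNat + a) ↔ p + θ < x + a := by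
      have : (p < ⌈x - θ⌉.toNat + a) ↔ ((p : ℤ) - a < ⌈x - θ⌉) := by omega
      rw [this, Int.lt_ceil]
      push_cast
      constructor <;> intro h <;> linarith
    rw [e1, e2]
  have key2 : ∀ (x : ℝ) (θ : ℝ) (_ : 0 < θ) (_ : θ < 1) (_ : 0 ≤ x) (a : ℕ) (_ : x + a ≤ n),
      ⌈x - θ⌉.toNat + a ≤ n := by
    intro x θ h0 h1 h2 a h3
    have hpos : 0 ≤ ⌈x - θ⌉ := by
      rw [← Int.sub_one_lt_iff, Int.lt_ceil]
      push_cast
      linarith
    have : ⌈x - θ⌉ ≤ (n : ℤ) - a := by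
      rw [Int.ceil_le]
      push_cast
      linarith
    omega
  refine ⟨{ X := fun i => ⌈T.x i - θ⌉.toNat, Y := fun i => ⌈T.y i - η⌉.toNat, a := T.a, b := T.b,
            a_pos := T.a_pos, b_pos := T.b_pos,
            hX := fun i => key2 _ _ hθ0 hθ1 (hbox i).1 _ (hbox i).2.2.1,
            hY := fun i => key2 _ _ hη0 hη1 (hbox i).2.1 _ (hbox i).2.2.2,
            cov := ?_ }, rfl, rfl⟩
  intro p hp q hq
  have hmem : ((p : ℝ) + θ, (q : ℝ) + η) ∈ Set.Icc (0 : ℝ) n ×ˢ Set.Icc (0 : ℝ) n := by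
    have hp' : (p : ℝ) + 1 ≤ n := by exact_mod_cast hp
    have hq' : (q : ℝ) + 1 ≤ n := by exact_mod_cast hq
    have : (0 : ℝ) ≤ p := Nat.cast_nonneg _
    have : (0 : ℝ) ≤ q := Nat.cast_nonneg _
    simp only [Set.mem_prod, Set.mem_Icc]
    constructor <;> constructor <;> linarith
  have hne : ∀ i, (p : ℝ) + θ ≠ T.x i ∧ (p : ℝ) + θ ≠ T.x i + T.a i ∧
      (q : ℝ) + η ≠ T.y i ∧ (q : ℝ) + η ≠ T.y i + T.b i := by
    intro i
    refine ⟨fun h => hθ i p ?_, fun h => hθ i (p - T.a i) ?_, fun h => hη i q ?_,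
      fun h => hη i (q - T.b i) ?_⟩ <;> push_cast <;> linarith
  rw [← T.cover] at hmem
  obtain ⟨i, hi⟩ := Set.mem_iUnion.1 hmem
  simp only [Set.mem_prod, Set.mem_Icc] at hi
  refine ⟨i, ?_, ?_⟩
  · simp only
    rw [key _ _ hθ1 (hbox i).1, key _ _ hη1 (hbox i).2.1]
    exact ⟨⟨hi.1.1, lt_of_le_of_ne hi.1.2 (hne i).2.1⟩, hi.2.1, lt_of_le_of_ne hi.2.2 (hne i).2.2.2⟩
  · intro j hj
    rw [key _ _ hθ1 (hbox j).1, key _ _ hη1 (hbox j).2.1] at hj
    by_contra hji
    have hd := T.disj j i hji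
    rw [interior_box, interior_box] at hd
    have m1 : ((p : ℝ) + θ, (q : ℝ) + η) ∈
        Set.Ioo (T.x j) (T.x j + T.a j) ×ˢ Set.Ioo (T.y j) (T.y j + T.b j) := by
      simp only [Set.mem_prod, Set.mem_Ioo]
      exact ⟨⟨lt_of_le_of_ne hj.1.1 (hne j).1.symm, hj.1.2⟩,
        lt_of_le_of_ne hj.2.1 (hne j).2.2.1.symm, hj.2.2⟩
    have m2 : ((p : ℝ) + θ, (q : ℝ) + η) ∈
        Set.Ioo (T.x i) (T.x i + T.a i) ×ˢ Set.Ioo (T.y i) (T.y i + T.b i) := by
      simp only [Set.mem_prod, Set.mem_Ioo]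
      exact ⟨⟨lt_of_le_of_ne hi.1.1 (hne i).1.symm, lt_of_le_of_ne hi.1.2 (hne i).2.1⟩,
        lt_of_le_of_ne hi.2.1 (hne i).2.2.1.symm, lt_of_le_of_ne hi.2.2 (hne i).2.2.2⟩
    exact Set.disjoint_left.1 hd m1 m2

/-! ### From cell tilings to real tilings -/

lemma ofCT {n m : ℕ} (hn : 0 < n) (C : CT n (Fin m)) : ∃ T : Tiling n m, T.a = C.a ∧ T.b = C.b := by
  refine ⟨{ x := fun i => C.X i, y := fun i => C.Y i, a := C.a, b := C.b, a_pos := C.a_pos,
            b_pos := C.b_pos, cover := ?_, disj := ?_ }, rfl, rfl⟩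
  · apply Set.Subset.antisymm
    · apply Set.iUnion_subset
      rintro i ⟨u, v⟩ h
      simp only [Set.mem_prod, Set.mem_Icc] at h ⊢
      have h1 : ((C.X i : ℝ) + C.a i) ≤ n := by exact_mod_cast C.hX i
      have h2 : ((C.Y i : ℝ) + C.b i) ≤ n := by exact_mod_cast C.hY i
      have h3 : (0 : ℝ) ≤ C.X i := Nat.cast_nonneg _
      have h4 : (0 : ℝ) ≤ C.Y i := Nat.cast_nonneg _
      exact ⟨⟨by linarith, by linarith⟩, by linarith, by linarith⟩
    · rintro ⟨u, v⟩ h
      simp only [Set.mem_prod, Set.mem_Icc] at h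
      have hcell : ∀ u : ℝ, 0 ≤ u → u ≤ n → ∃ p : ℕ, p < n ∧ (p : ℝ) ≤ u ∧ u ≤ p + 1 := by
        intro u h0 h1
        rcases lt_or_eq_of_le h1 with h2 | h2
        · refine ⟨⌊u⌋₊, ?_, Nat.floor_le h0, (Nat.lt_floor_add_one u).le⟩
          exact (Nat.floor_lt h0).2 h2
        · refine ⟨n - 1, by omega, ?_, ?_⟩
          · rw [h2]
            exact_mod_cast Nat.sub_le n 1
          · rw [h2]
            have : n = n - 1 + 1 := by omega
            exact_mod_cast this.le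
      obtain ⟨p, hp, hp1, hp2⟩ := hcell u h.1.1 h.1.2
      obtain ⟨q, hq, hq1, hq2⟩ := hcell v h.2.1 h.2.2
      obtain ⟨i, hi, -⟩ := C.cov p hp q hq
      refine Set.mem_iUnion.2 ⟨i, ?_⟩
      simp only [Set.mem_prod, Set.mem_Icc]
      have h1 : (C.X i : ℝ) ≤ p := by exact_mod_cast hi.1.1
      have h2 : (p : ℝ) + 1 ≤ C.X i + C.a i := by exact_mod_cast hi.1.2
      have h3 : (C.Y i : ℝ) ≤ q := by exact_mod_cast hi.2.1
      have h4 : (q : ℝ) + 1 ≤ C.Y i + C.b i := by exact_mod_cast hi.2.2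
      exact ⟨⟨by linarith, by linarith⟩, by linarith, by linarith⟩
  · intro i j hij
    rw [interior_box, interior_box, Set.disjoint_left]
    rintro ⟨u, v⟩ h h'
    simp only [Set.mem_prod, Set.mem_Ioo] at h h'
    apply hij
    have key : ∀ (X a : ℕ) (u : ℝ), (X : ℝ) < u → u < X + a → X ≤ ⌊u⌋₊ ∧ ⌊u⌋₊ < X + a := by
      intro X a u h1 h2
      have h0 : 0 ≤ u := le_trans (Nat.cast_nonneg X) h1.le
      refine ⟨Nat.le_floor h1.le, ?_⟩
      rw [Nat.floor_lt h0]
      push_cast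
      exact h2
    exact C.uniq ⟨key _ _ _ h.1.1 h.1.2, key _ _ _ h.2.1 h.2.2⟩
      ⟨key _ _ _ h'.1.1 h'.1.2, key _ _ _ h'.2.1 h'.2.2⟩

/-! ### The construction -/

section Construction

variable (n : ℕ) (w : ℕ → ℕ)

/-- left ends of the height-two tiles -/
def cc (j : ℕ) : ℕ := 3 + ∑ l ∈ range j, w l

def aa : ℕ → ℕ
  | 0 => n
  | 1 => 3
  | 2 => 1
  | 3 => 2
  | (j + 4) => w j

def bb : ℕ → ℕ
  | 0 => n - 2
  | 1 => 1
  | 2 => 1
  | 3 => 1
  | (_ + 4) => 2

def XX : ℕ → ℕ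
  | 0 => 0
  | 1 => 0
  | 2 => 0
  | 3 => 1
  | (j + 4) => cc w j

def YY : ℕ → ℕ
  | 0 => 2
  | 1 => 1
  | 2 => 0
  | 3 => 0
  | (_ + 4) => 0

lemma cc_succ (j : ℕ) : cc w (j + 1) = cc w j + w j := by
  simp only [cc, Finset.sum_range_succ]; omega

lemma cc_mono : Monotone (cc w) := monotone_nat_of_le_succ fun j => by
  rw [cc_succ]; omega

lemma exists_step (c : ℕ → ℕ) (p : ℕ) (h0 : c 0 ≤ p) (N : ℕ) (hN : p < c N) :
    ∃ j < N, c j ≤ p ∧ p < c (j + 1) := by
  induction N with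
  | zero => omega
  | succ N ih =>
    by_cases h : p < c N
    · obtain ⟨j, hj, h1⟩ := ih h
      exact ⟨j, by omega, h1⟩
    · exact ⟨N, by omega, by omega, hN⟩

lemma cell_unique (i i' p q : ℕ)
    (h : (XX w i ≤ p ∧ p < XX w i + aa n w i) ∧ (YY i ≤ q ∧ q < YY i + bb n i))
    (h' : (XX w i' ≤ p ∧ p < XX w i' + aa n w i') ∧ (YY i' ≤ q ∧ q < YY i' + bb n i')) :
    i = i' := by
  have h3 : ∀ j, 3 ≤ cc w j := fun j => by simp only [cc]; omega
  rcases i with _ | _ | _ | _ | j <;> rcases i' with _ | _ | _ | _ | j' <;>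
    simp only [XX, YY, aa, bb, Nat.zero_add, Nat.reduceAdd] at h h' ⊢ <;>
    first
      | omega
      | (have := h3 j; omega)
      | (have := h3 j'; omega)
      | (rw [← cc_succ] at h h'
         rcases lt_trichotomy j j' with hlt | heq | hlt
         · have := cc_mono w (show j + 1 ≤ j' by omega)
           omega
         · omega
         · have := cc_mono w (show j' + 1 ≤ j by omega)
           omega)

def build (k : ℕ) (hn : 6 ≤ n) (hw : ∀ j, 0 < w j) (hc : cc w (k + 1) = n) : CT n (Fin (k + 5)) where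
  X := fun i => XX w i
  Y := fun i => YY i
  a := fun i => aa n w i
  b := fun i => bb n i
  a_pos := by
    rintro ⟨i, hi⟩
    rcases i with _ | _ | _ | _ | j <;> simp only [aa] <;> first | omega | exact hw j
  b_pos := by
    rintro ⟨i, hi⟩
    rcases i with _ | _ | _ | _ | j <;> simp only [bb] <;> omega
  hX := by
    rintro ⟨i, hi⟩
    rcases i with _ | _ | _ | _ | j <;> simp only [XX, aa] <;> try omega
    rw [← cc_succ]
    have := cc_mono w (show j + 1 ≤ k + 1 by omega)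
    omega
  hY := by
    rintro ⟨i, hi⟩
    rcases i with _ | _ | _ | _ | j <;> simp only [YY, bb] <;> omega
  cov := by
    intro p hp q hq
    have hex : ∃ i : Fin (k + 5), (XX w i ≤ p ∧ p < XX w i + aa n w i) ∧
        (YY i ≤ q ∧ q < YY i + bb n i) := by
      by_cases h2 : 2 ≤ q
      · exact ⟨⟨0, by omega⟩, by simp only [XX, aa, YY, bb]; omega⟩
      by_cases h3 : p < 3
      · by_cases h1 : q = 1
        · exact ⟨⟨1, by omega⟩, by simp only [XX, aa, YY, bb]; omega⟩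
        · by_cases h4 : p = 0
          · exact ⟨⟨2, by omega⟩, by simp only [XX, aa, YY, bb]; omega⟩
          · exact ⟨⟨3, by omega⟩, by simp only [XX, aa, YY, bb]; omega⟩
      · have hc0 : cc w 0 = 3 := by simp [cc]
        obtain ⟨j, hj, h5, h6⟩ := exists_step (cc w) p (by omega) (k + 1) (by omega)
        rw [cc_succ] at h6
        exact ⟨⟨j + 4, by omega⟩, by simp only [XX, aa, YY, bb]; omega⟩
    obtain ⟨i, hi⟩ := hex
    refine ⟨i, hi, fun i' hi' => ?_⟩
    exact Fin.ext (cell_unique n w _ _ p q hi' hi)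

end Construction

lemma upper (k n : ℕ) (hn1 : (k + 3) * (k + 4) ≤ 2 * n) :
    ∃ C : CT n (Fin (k + 5)), Function.Injective (fun i => s(C.a i, C.b i)) ∧
      ∑ i, (C.a i + C.b i) = 3 * n + 2 * (k + 3) := by
  have hn : 6 ≤ n := by nlinarith
  obtain ⟨S, hS⟩ : ∃ S, S = ∑ l ∈ range k, (l + 2) := ⟨_, rfl⟩
  have h2S : 2 * S = k * (k + 3) := by
    rw [hS]
    clear hn1 hS hn
    induction k with
    | zero => simp
    | succ k ih => rw [Finset.sum_range_succ, mul_add, ih]; ring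
  have hgap : 3 + S + (2 * k + 3) ≤ n := by nlinarith
  obtain ⟨w, hw⟩ : ∃ w : ℕ → ℕ, w = fun j => if j < k then j + 2 else n - (3 + S) := ⟨_, rfl⟩
  have hw1 : ∀ j, j < k → w j = j + 2 := by
    intro j hj; rw [hw]; simp [hj]
  have hwk : w k = n - (3 + S) := by rw [hw]; simp
  have hwpos : ∀ j, 2 ≤ w j := by
    intro j; rw [hw]; simp only; split_ifs <;> omega
  have hsum : ∑ l ∈ range k, w l = S := by
    rw [hS]
    exact Finset.sum_congr rfl fun l hl => hw1 l (by simpa using hl)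
  have hc : cc w (k + 1) = n := by
    rw [cc, Finset.sum_range_succ, hsum, hwk]
    omega
  have hwinj : ∀ j j', j < k + 1 → j' < k + 1 → w j = w j' → j = j' := by
    intro j j' hj hj' he
    rcases Nat.lt_or_ge j k with h1 | h1 <;> rcases Nat.lt_or_ge j' k with h2 | h2
    · rw [hw1 j h1, hw1 j' h2] at he; omega
    · have : j' = k := by omega
      rw [this, hw1 j h1, hwk] at he; omega
    · have : j = k := by omega
      rw [this, hw1 j' h2, hwk] at he; omega
    · omega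
  refine ⟨build n w k hn (fun j => by have := hwpos j; omega) hc, ?_, ?_⟩
  · rintro ⟨i, hi⟩ ⟨i', hi'⟩ h
    apply Fin.ext
    simp only [build] at h ⊢
    rw [Sym2.eq_iff] at h
    rcases i with _ | _ | _ | _ | j <;> rcases i' with _ | _ | _ | _ | j' <;>
      simp only [aa, bb] at h ⊢ <;>
      first
        | omega
        | (have := hwpos j; omega)
        | (have := hwpos j'; omega)
        | (have e : w j = w j' := by omega
           have := hwinj j j' (by omega) (by omega) e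
           omega)
  · simp only [build]
    rw [Fin.sum_univ_eq_sum_range (fun i => aa n w i + bb n i) (k + 5),
      Finset.sum_range_succ', Finset.sum_range_succ', Finset.sum_range_succ',
      Finset.sum_range_succ']
    simp only [aa, bb, Finset.sum_add_distrib, Finset.sum_const, card_range, smul_eq_mul]
    have : ∑ l ∈ range (k + 1), w l = n - 3 := by
      have := hc
      rw [cc] at this
      omega
    rw [this]
    omega

/-- **Answer to MP_88b750_co, Q1: yes** (for all `m ≥ 5`). For every `m ≥ 5` and every `n` with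
`T_{m-2} ≤ n < T_{m-1}`, the least internal wall length of an admissible tiling of `[0,n]²` by `m`
rectangles exists and equals `n + 2(m-2)`. -/
theorem result (m n : ℕ) (hm : 5 ≤ m) (h1 : tri (m - 2) ≤ n) (h2 : n < tri (m - 1)) :
    IsLeast {W : ℤ | ∃ T : Tiling n m, T.Admissible ∧ T.wall = W} ((n : ℤ) + 2 * ((m : ℤ) - 2)) := by
  obtain ⟨k, rfl⟩ : ∃ k, m = k + 5 := ⟨m - 5, by omega⟩
  have e1 : k + 5 - 2 = k + 3 := by omega
  have e2 : k + 5 - 1 = k + 4 := by omega
  rw [e1, tri] at h1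
  rw [e2, tri] at h2
  have t1 : 2 * ((k + 3) * (k + 3 + 1) / 2) = (k + 3) * (k + 3 + 1) :=
    Nat.two_mul_div_two_of_even (Nat.even_mul_succ_self _)
  have t2 : 2 * ((k + 4) * (k + 4 + 1) / 2) = (k + 4) * (k + 4 + 1) :=
    Nat.two_mul_div_two_of_even (Nat.even_mul_succ_self _)
  have hn1 : (k + 3) * (k + 4) ≤ 2 * n := by
    have : (k + 3) * (k + 3 + 1) = (k + 3) * (k + 4) := by ring
    omega
  have hn2 : 2 * n < (k + 4) * (k + 5) := by
    have : (k + 4) * (k + 4 + 1) = (k + 4) * (k + 5) := by ring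
    omega
  constructor
  · obtain ⟨C, hinj, hsum⟩ := upper k n hn1
    obtain ⟨T, hTa, hTb⟩ := ofCT (by nlinarith) C
    refine ⟨T, ?_, ?_⟩
    · unfold Tiling.Admissible
      rw [hTa, hTb]
      exact hinj
    · unfold Tiling.wall
      rw [hTa, hTb]
      have : (∑ i, ((C.a i : ℤ) + (C.b i : ℤ))) = ((∑ i, (C.a i + C.b i) : ℕ) : ℤ) := by
        push_cast; rfl
      rw [this, hsum]
      push_cast
      ring
  · rintro W ⟨T, hadm, rfl⟩
    obtain ⟨C, hCa, hCb⟩ := toCT T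
    have hl := lower C (by rw [hCa, hCb]; exact hadm) (k + 5) (by simp) (by omega)
      (by rw [e1, e2]; exact hn1) (by rw [e2]; exact hn2)
    rw [hCa, hCb, e1] at hl
    unfold Tiling.wall
    have : (∑ i, ((T.a i : ℤ) + (T.b i : ℤ))) = ((∑ i, T.a i + ∑ i, T.b i : ℕ) : ℤ) := by
      rw [Finset.sum_add_distrib]
      push_cast
      rfl
    rw [this]
    have hl' : ((3 * n + 2 * (k + 3) : ℕ) : ℤ) ≤ ((∑ i, T.a i + ∑ i, T.b i : ℕ) : ℤ) := by
      exact_mod_cast hl
    push_cast at hl' ⊢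
    linarith

end Pool.Agent.Results.MP_88b750_co.MiddleRegime
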